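import Pool.Agent.Run7.h527.PC.E
import Pool.Agent.Run7.h527.PC.Val
import Pool.Agent.N733.TG.I
import Pool.Agent.N375.AV.Ex

/-!
# Pair correlation in all short intervals near the values of arithmetic functions

Assume the Riemann hypothesis. Let `f` be a multiplicative function of the class `LM` (for example Euler's function or the sum
of the divisors) or a composition of functions dominated by the largest prime factor (`PD`: additive functions as the sum of
the prime factors, the largest prime factor, Kempner's function). Let `G` have steps bounded below by a positive constant and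
`G(v) ≤ C v`. There is ONE set `E` of exceptional natural numbers, with at most `N / (log N)^U` elements up to `N`, for every
`U`, such that for ALL test functions `r` of bandwidth less than `(1 + η) / 2`, all `κ < η`, `0 < η < 1`, for all but finitely
many `m` outside `E` the pair correlation law of Montgomery holds near `g = G(f(m))` in ALL intervals `(t, t + H]` with
`|t - g| ≤ g^κ`, `t^η ≤ H ≤ t / 40`: the sum of `r((γ - γ') l / 2π)` over all pairs of ordinates in `(t, t + H]` is
`(H l / 2π) (r(0) + ∫ r(x) (1 - (sin πx / πx)²) dx + o(1))`, uniformly in `t`, `H` and in the scale `l = log t + O(1)`. The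
values `f(m)` are in general taken with very large multiplicities, and for additive functions they are much smaller than `m`,
so that this does not follow from the measure of the set of the exceptional heights.

Proof. A failure of the law for a nonnegative test function at `t` causes failures at all points of `[t, t + A)` or of
`[t - A, t)`, `A ≤ t^κ`, and so the integers `v` with a failure near `G(v)` are a thin set: there are `O(X^θ)` of them up to
`X`, `θ < 1`. The preimages of thin sets under the functions of the two classes are small (`N733/TG`, `N375/AV`, starting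
files). A positive majorant and the separability of the space of the test functions reduce the theorem to countably many
test functions (`Run7/h527/PC`, as in `PairsAtGoodApproximations`), and a diagonal argument gives one set `E`.
-/

set_option autoImplicit false

open Filter Topology MeasureTheory

namespace Pool.Agent.Results.MP_103a5c_nt.PairsAtArithmeticValues

open Pool.Agent.N593.DZ (large)
open Pool.Agent.N733.TG (LM lm_totient lm_sigma)
open Pool.Agent.N375.AV (PD comp pd_sopfr pd_largest pd_kempner)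

/-- the nontrivial zeros of zeta with ordinate in `(a, b]` -/
def zeros (a b : ℝ) : Set ℂ :=
  {s : ℂ | riemannZeta s = 0 ∧ 0 < s.re ∧ s.re < 1 ∧ a < s.im ∧ s.im ≤ b}

/-- the multiplicity of a zero -/
noncomputable def m (s : ℂ) : ℝ := (analyticOrderNatAt riemannZeta s : ℝ)

/-- the sum of `f (γ - γ')` over the ordered pairs of ordinates of zeros in `(a, b]`, counted with multiplicity (the diagonal
pairs are included) -/
noncomputable def pairs (a b : ℝ) (f : ℝ → ℝ) : ℝ :=
  ∑ᶠ s ∈ zeros a b, ∑ᶠ s' ∈ zeros a b, m s * m s' * f (s.im - s'.im)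

/-- `r` is a test function of bandwidth `μ`: the cosine transform of a Lipschitz function that vanishes outside `(-μ, μ)`, with
`r(x) = O(x⁻²)` -/
def Test (μ : ℝ) (r : ℝ → ℝ) : Prop :=
  ∃ ψ : ℝ → ℝ, (∃ K : ℝ, ∀ x y, |ψ x - ψ y| ≤ K * |x - y|) ∧ (∀ x, μ ≤ |x| → ψ x = 0) ∧
    (∀ x, r x = ∫ α in (-μ)..μ, ψ α * Real.cos (2 * Real.pi * α * x)) ∧
    ∃ C : ℝ, ∀ x, |r x| * x ^ 2 ≤ C

/-- the pair sum of the ordinates in `(t, t + H]` at the scale `l`, divided by `H l / 2π` -/
noncomputable def P (r : ℝ → ℝ) (t H l : ℝ) : ℝ :=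
  (H * l / (2 * Real.pi))⁻¹ * pairs t (t + H) (fun d => r (d * l / (2 * Real.pi)))

/-- the main term -/
noncomputable def M (r : ℝ → ℝ) : ℝ :=
  r 0 + ∫ x, r x * (1 - (Real.sin (Real.pi * x) / (Real.pi * x)) ^ 2)

/-- **The law near `g`**: `|P r t H l - M r| ≤ ε` for all `t` with `|t - g| ≤ g^κ`, all `H` with `t^η ≤ H ≤ t / 40` and all
scales `l` with `|l - log t| ≤ c`. -/
def Near (r : ℝ → ℝ) (ε η κ c g : ℝ) : Prop :=
  ∀ t : ℝ, |t - g| ≤ g ^ κ → ∀ H : ℝ, t ^ η ≤ H → H ≤ t / 40 → ∀ l : ℝ, |l - Real.log t| ≤ c → |P r t H l - M r| ≤ ε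

/-- at most `N / (log N)^U` elements up to `N`, for every `U` and all large `N` -/
def Small (E : Set ℕ) : Prop := ∀ U : ℕ, ∃ N₀ : ℕ, ∀ N : ℕ, N₀ ≤ N →
  ({m : ℕ | 1 ≤ m ∧ m ≤ N ∧ m ∈ E}.ncard : ℝ) ≤ N / Real.log N ^ U

lemma pairs_eq (r : ℝ → ℝ) (t H l : ℝ) :
    pairs t (t + H) (fun d => r (d * l / (2 * Real.pi))) = Run7.h527.PC.S r t (t + H) l := by
  have e : zeros t (t + H) = H370.zset riemannZeta t (t + H) := by
    ext s
    simp only [zeros, H370.zset, Set.mem_ofPred_eq]
    tauto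
  unfold pairs Run7.h527.PC.S
  rw [e]
  rfl

lemma law_of {r : ℝ → ℝ} {ε t H l : ℝ} (hm : 0 < H * l / (2 * Real.pi)) (h : Run7.h527.PC.Law r ε t H l) :
    |P r t H l - M r| ≤ ε := by
  unfold Run7.h527.PC.Law at h
  unfold P
  rw [pairs_eq]
  obtain ⟨w, hw⟩ : ∃ w : ℝ, w = H * l / (2 * Real.pi) := ⟨_, rfl⟩
  rw [← hw] at h hm ⊢
  have e : w⁻¹ * Run7.h527.PC.S r t (t + H) l - M r = w⁻¹ * (Run7.h527.PC.S r t (t + H) l - w * M r) := by
    rw [mul_sub, inv_mul_cancel_left₀ hm.ne']
  rw [e, abs_mul, abs_of_pos (inv_pos.2 hm), inv_mul_eq_div, div_le_iff₀ hm]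
  exact h

/-- a positive lower bound for the points near `g` -/
lemma near_large {κ : ℝ} (hκ : κ < 1) (B : ℝ) : ∃ g₀ : ℝ, ∀ g : ℝ, g₀ ≤ g → ∀ t : ℝ, |t - g| ≤ g ^ κ → B ≤ t := by
  obtain ⟨Y, hY⟩ := eventually_atTop.1 (((tendsto_rpow_atTop (show 0 < 1 - κ by linarith)).eventually
    (eventually_ge_atTop (2 : ℝ))).and (eventually_ge_atTop (1 : ℝ)))
  refine ⟨max Y (2 * |B|), fun g hg t ht => ?_⟩
  obtain ⟨h1, h2⟩ := hY g ((le_max_left _ _).trans hg)
  have h3 : 2 * |B| ≤ g := (le_max_right _ _).trans hg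
  have h4 := mul_le_mul_of_nonneg_right h1 (show 0 ≤ g ^ κ by positivity)
  rw [← Real.rpow_add (by linarith), sub_add_cancel, Real.rpow_one] at h4
  have h5 := (abs_le.1 ht).1
  linarith [le_abs_self B]

lemma not_law {G : ℕ → ℝ} {a C : ℝ} (ha : 0 < a) (h : ∀ v : ℕ, 1 ≤ v → a ≤ G (v + 1) - G v)
    (hG : ∀ v : ℕ, 1 ≤ v → G v ≤ C * v) {η μ ε κ c : ℝ} (hη0 : 0 < η) (hη1 : η < 1) (hμ : 0 < μ)
    (hgap : μ < (1 + η) / 2) (hκ : κ < η) (hε : 0 < ε) {r : ℝ → ℝ} (hr : Test μ r) :
    ∃ i : (ℚ × ℚ × ℚ) × (ℕ × ℕ × ℕ) × ℕ × ℕ, ∃ q₀ : ℕ, ∀ q : ℕ, q₀ ≤ q → ¬ Near r ε η κ c (G q) →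
      q ∈ Run7.h527.PC.W G i := by
  obtain ⟨i, q₀, hi⟩ := Run7.h527.PC.not_law ha h hG (c := c) hη0 hη1 hμ hgap hκ hε hr
  obtain ⟨g₀, hg₀⟩ := near_large (κ := κ) (by linarith) (max 1 (Real.exp (c + 1)))
  obtain ⟨q₁, hq₁⟩ := large ha h g₀
  refine ⟨i, max q₀ q₁, fun q hq hbad => hi q ((le_max_left _ _).trans hq) fun hgood => hbad ?_⟩
  intro t ht H hH1 hH2 l hl
  have h1 := hg₀ (G q) (hq₁ q ((le_max_right _ _).trans hq)) t ht
  have h2 : 1 ≤ t := (le_max_left _ _).trans h1
  have h3 : c + 1 ≤ Real.log t := (Real.le_log_iff_exp_le (by linarith)).2 ((le_max_right _ _).trans h1)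
  have hpi := Real.pi_pos
  have h4 := (abs_le.1 hl).1
  have hl0 : 0 < l := by linarith
  have hH0 : 0 < H := lt_of_lt_of_le (Real.rpow_pos_of_pos (by linarith) _) hH1
  exact law_of (by positivity) (hgood t ht H hH1 hH2 l hl)

/-- **Pair correlation near the values of arithmetic functions.** Assume the Riemann hypothesis. Let `G` have steps `≥ a > 0`
and `G v ≤ C v`, and let `f` be a multiplicative function of the class `LM` or a composition of functions of the class `PD`.
There is a set `E` of natural numbers with at most `N / (log N)^U` elements up to `N`, for every `U` and all large `N`, such that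
for ALL `0 < η < 1`, `κ < η`, `0 < μ < (1 + η) / 2`, `ε > 0`, `c` and ALL test functions `r` of bandwidth `μ`, all but finitely
many `m` outside `E` satisfy `Near r ε η κ c (G (f m))`: the law holds in all intervals `(t, t + H]` with
`|t - G (f m)| ≤ (G (f m))^κ`, `t^η ≤ H ≤ t / 40`. Euler's function and the sum of the divisors belong to `LM`; the sum of the
prime factors, the largest prime factor and Kempner's function belong to `PD`. -/
theorem result (hRH : RiemannHypothesis) :
    (∀ (G : ℕ → ℝ) (a C : ℝ), 0 < a → (∀ v : ℕ, 1 ≤ v → a ≤ G (v + 1) - G v) → (∀ v : ℕ, 1 ≤ v → G v ≤ C * v) →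
      ∀ f : ℕ → ℕ, (LM f ∨ ∃ fs : List (ℕ → ℕ), (∀ g ∈ fs, PD g) ∧ f = comp fs) →
        ∃ E : Set ℕ, Small E ∧ ∀ (η μ ε κ c : ℝ) (r : ℝ → ℝ), 0 < η → η < 1 → 0 < μ → μ < (1 + η) / 2 → κ < η → 0 < ε →
          Test μ r → {m : ℕ | m ∉ E ∧ ¬ Near r ε η κ c (G (f m))}.Finite) ∧
    (LM Nat.totient ∧ LM (fun n => ∑ d ∈ n.divisors, d)) ∧
    PD (fun n => n.primeFactorsList.sum) ∧ PD (fun n => n.primeFactors.sup id) ∧
      PD (fun n => sInf {k : ℕ | n ∣ k.factorial}) := by
  refine ⟨fun G a C ha h hG f hf => ?_, ⟨lm_totient, lm_sigma⟩, pd_sopfr, pd_largest, pd_kempner⟩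
  obtain ⟨E, hE, h1, h2⟩ := Run7.h527.Thin.values hf (Run7.h527.PC.W G) (Run7.h527.PC.thin_W hRH ha h hG)
  refine ⟨E, hE, fun η μ ε κ c r h3 h4 hμ hgap hκ hε hr => ?_⟩
  obtain ⟨i, q₀, hi⟩ := not_law ha h hG (c := c) h3 h4 hμ hgap hκ hε hr
  refine ((h1 i).union (h2 q₀)).subset ?_
  rintro n ⟨k1, k2⟩
  rcases lt_or_ge (f n) q₀ with h5 | h5
  · exact Or.inr ⟨h5, k1⟩
  · exact Or.inl ⟨hi (f n) h5 k2, k1⟩

end Pool.Agent.Results.MP_103a5c_nt.PairsAtArithmeticValues
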